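import Mathlib

set_option autoImplicit false

namespace Pool.Agent.Results.MP_4df60b_co.FdimBound

open Finset

/-- Membership in the family `P(k,n)`: `A ⊆ [n]`, and whenever `|A| = k + i - 1` we have
`[i-1] ⊆ A`. Here `[m] = {1, …, m}` is `Finset.Icc 1 m`. -/
def Mem (k n : ℕ) (A : Finset ℕ) : Prop :=
  A ⊆ Finset.Icc 1 n ∧ ∀ i : ℕ, A.card + 1 = k + i → Finset.Icc 1 (i - 1) ⊆ A

/-- The poset `P(k,n)`: its elements are the members of the family, ordered by inclusion
(the order induced from `Finset ℕ`). -/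
abbrev P (k n : ℕ) : Type := {A : Finset ℕ // Mem k n A}

instance (k n : ℕ) : Finite (P k n) := by
  refine Finite.of_injective
    (fun A : P k n => (⟨A.1, Finset.mem_powerset.2 A.2.1⟩ :
      {x : Finset ℕ // x ∈ (Finset.Icc 1 n).powerset})) ?_
  intro A B h
  have := congrArg (fun x => x.1) h
  exact Subtype.ext this

/-- The linear extensions of a poset `α`: the total order relations on `α` that contain `≤`. -/
def LinExt (α : Type) [PartialOrder α] : Type :=
  {r : α → α → Prop // (∀ a, r a a) ∧ (∀ a b, r a b → r b a → a = b) ∧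
    (∀ a b c, r a b → r b c → r a c) ∧ (∀ a b, r a b ∨ r b a) ∧ (∀ a b, a ≤ b → r a b)}

instance (α : Type) [PartialOrder α] [Finite α] : Finite (LinExt α) :=
  Subtype.finite

noncomputable instance (α : Type) [PartialOrder α] [Finite α] : Fintype (LinExt α) :=
  Fintype.ofFinite _

open Classical in
/-- `w` is a fractional realizer of the finite poset `α`: it is nonnegative and for every ordered
pair `(a,b)` of incomparable elements the total weight of the linear extensions with `a` above `b`
is at least `1`. -/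
def IsFracRealizer {α : Type} [PartialOrder α] [Finite α] (w : LinExt α → ℝ) : Prop :=
  (∀ L, 0 ≤ w L) ∧
    ∀ a b : α, ¬ a ≤ b → ¬ b ≤ a → 1 ≤ ∑ L : LinExt α, if L.1 b a then w L else 0

open Classical in
/-- The fractional dimension of a finite poset: `1` for a chain, otherwise the infimum (which is
a minimum) of the total weights of the fractional realizers. -/
noncomputable def fdim (α : Type) [PartialOrder α] [Finite α] : ℝ :=
  if ∀ a b : α, a ≤ b ∨ b ≤ a then 1
  else sInf {t : ℝ | ∃ w : LinExt α → ℝ, IsFracRealizer w ∧ t = ∑ L : LinExt α, w L}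

/-! ### The linear extension attached to a set of red points -/

/-- rank of a point: red points keep their value, blue points are negated. -/
def rk (R : Finset ℕ) (x : ℕ) : ℤ := if x ∈ R then (x : ℤ) else -(x : ℤ)

lemma rk_inj (R : Finset ℕ) : Function.Injective (rk R) := by
  intro x y h
  unfold rk at h
  split_ifs at h with hx hy hy
  · exact_mod_cast h
  · have h1 : x = 0 := by omega
    have h2 : y = 0 := by omega
    omega
  · have h1 : x = 0 := by omega
    have h2 : y = 0 := by omega
    omega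
  · have : (x : ℤ) = y := by linarith
    exact_mod_cast this

/-- key of a set in the colexicographic order given by the ranks. -/
def key (R A : Finset ℕ) : Colex (Finset ℤ) := toColex (A.image (rk R))

lemma key_inj (R : Finset ℕ) : Function.Injective (key R) := by
  intro A B h
  have h' : A.image (rk R) = B.image (rk R) := by
    have := congrArg ofColex h
    simpa [key] using this
  exact Finset.image_injective (rk_inj R) h'

lemma key_mono (R : Finset ℕ) {A B : Finset ℕ} (h : A ⊆ B) : key R A ≤ key R B :=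
  Finset.Colex.toColex_le_toColex_of_subset (Finset.image_subset_image h)

/-- the linear extension of `P(k,n)` given by the red set `R`. -/
def ext (k n : ℕ) (R : Finset ℕ) : LinExt (P k n) :=
  ⟨fun A B => key R A.1 ≤ key R B.1, fun _ => le_refl _,
    fun _ _ h1 h2 => Subtype.ext (key_inj R (le_antisymm h1 h2)),
    fun _ _ _ h1 h2 => le_trans h1 h2, fun _ _ => le_total _ _,
    fun _ _ h => key_mono R h⟩

lemma card_above {k n : ℕ} {B : Finset ℕ} (hB : Mem k n B) {b : ℕ} (hb1 : 1 ≤ b) (hb : b ∉ B) :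
    (B.filter (fun y => b < y)).card ≤ k := by
  by_cases hk : B.card ≤ k
  · exact (Finset.card_filter_le _ _).trans hk
  · push Not at hk
    have h1 : Finset.Icc 1 (B.card - k) ⊆ B := by
      have := hB.2 (B.card - k + 1) (by omega)
      simpa using this
    have h2 : B.card - k < b := by
      by_contra hcon
      push Not at hcon
      exact hb (h1 (Finset.mem_Icc.2 ⟨hb1, hcon⟩))
    have h3 : B.filter (fun y => b < y) ⊆ B \ Finset.Icc 1 (B.card - k) := by
      intro y hy
      rw [Finset.mem_filter] at hy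
      rw [Finset.mem_sdiff, Finset.mem_Icc]
      refine ⟨hy.1, ?_⟩
      omega
    have h4 := Finset.card_le_card h3
    rw [Finset.card_sdiff_of_subset h1] at h4
    simp at h4
    omega

lemma ext_reverses {k n : ℕ} {R : Finset ℕ} {A B : P k n} {b : ℕ} (hbA : b ∈ A.1) (hbB : b ∉ B.1)
    (hbR : b ∈ R) (hD : ∀ y ∈ B.1, b < y → y ∉ R) : (ext k n R).1 B A := by
  have : key R B.1 < key R A.1 := by
    unfold key
    rw [Finset.Colex.toColex_lt_toColex_iff_exists_forall_lt]
    refine ⟨rk R b, Finset.mem_image_of_mem _ hbA, ?_, ?_⟩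
    · intro h
      rw [Finset.mem_image] at h
      obtain ⟨y, hy, hyb⟩ := h
      exact hbB ((rk_inj R hyb) ▸ hy)
    · intro z hz _
      rw [Finset.mem_image] at hz
      obtain ⟨y, hy, rfl⟩ := hz
      have hyb : y ≠ b := fun h => hbB (h ▸ hy)
      have h1 : rk R b = b := by simp [rk, hbR]
      have hb1 : 1 ≤ b := (Finset.mem_Icc.1 (A.2.1 hbA)).1
      rw [h1]
      unfold rk
      split_ifs with hyR
      · have : ¬ b < y := fun h => hD y hy h hyR
        omega
      · omega
  exact this.le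

/-! ### The weights -/

/-- the weight of a red set. -/
noncomputable def wt (n : ℕ) (p : ℝ) (R : Finset ℕ) : ℝ :=
  (∏ _x ∈ R, p) * ∏ _x ∈ Finset.Icc 1 n \ R, (1 - p)

lemma wt_nonneg {n : ℕ} {p : ℝ} (hp0 : 0 ≤ p) (hp1 : p ≤ 1) (R : Finset ℕ) : 0 ≤ wt n p R := by
  unfold wt
  apply mul_nonneg
  · exact Finset.prod_nonneg (fun _ _ => hp0)
  · exact Finset.prod_nonneg (fun _ _ => by linarith)

lemma sum_wt (n : ℕ) (p : ℝ) : ∑ R ∈ (Finset.Icc 1 n).powerset, wt n p R = 1 := by
  unfold wt
  rw [← Finset.prod_add]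
  simp

lemma sum_wt_event {n k : ℕ} {p : ℝ} (hp0 : 0 ≤ p) (hp1 : p ≤ 1) {b : ℕ} {D : Finset ℕ}
    (hb : b ∈ Finset.Icc 1 n) (hD : D ⊆ Finset.Icc 1 n) (hbD : b ∉ D) (hcard : D.card ≤ k) :
    p * (1 - p) ^ k ≤
      ∑ R ∈ (Finset.Icc 1 n).powerset, if b ∈ R ∧ Disjoint D R then wt n p R else 0 := by
  classical
  have key : ∑ R ∈ (Finset.Icc 1 n).powerset, (if b ∈ R ∧ Disjoint D R then wt n p R else 0)
      = ∏ x ∈ Finset.Icc 1 n, ((if x ∈ D then 0 else p) + (if x = b then 0 else (1 - p))) := by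
    rw [Finset.prod_add]
    apply Finset.sum_congr rfl
    intro R hR
    rw [Finset.mem_powerset] at hR
    split_ifs with h
    · unfold wt
      congr 1
      · apply Finset.prod_congr rfl
        intro x hx
        have : x ∉ D := fun hxD => (Finset.disjoint_left.1 h.2) hxD hx
        simp [this]
      · apply Finset.prod_congr rfl
        intro x hx
        have : x ≠ b := by
          rintro rfl
          exact (Finset.mem_sdiff.1 hx).2 h.1
        simp [this]
    · symm
      rw [mul_eq_zero]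
      by_cases hbR : b ∈ R
      · left
        have : ¬ Disjoint D R := fun hd => h ⟨hbR, hd⟩
        rw [Finset.not_disjoint_iff] at this
        obtain ⟨x, hxD, hxR⟩ := this
        exact Finset.prod_eq_zero hxR (by simp [hxD])
      · right
        exact Finset.prod_eq_zero (Finset.mem_sdiff.2 ⟨hb, hbR⟩) (by simp)
  rw [key]
  have h2 : ∏ x ∈ Finset.Icc 1 n, ((if x ∈ D then 0 else p) + (if x = b then 0 else (1 - p)))
      = p * (1 - p) ^ D.card := by
    rw [← Finset.mul_prod_erase _ _ hb]
    congr 1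
    · simp [hbD]
    · have hD' : D ⊆ (Finset.Icc 1 n).erase b := by
        intro x hx
        exact Finset.mem_erase.2 ⟨fun h => hbD (h ▸ hx), hD hx⟩
      rw [← Finset.prod_sdiff hD']
      have e1 : ∏ x ∈ (Finset.Icc 1 n).erase b \ D,
          ((if x ∈ D then 0 else p) + (if x = b then 0 else (1 - p))) = 1 := by
        apply Finset.prod_eq_one
        intro x hx
        rw [Finset.mem_sdiff, Finset.mem_erase] at hx
        simp [hx.2, hx.1.1]
      have e2 : ∏ x ∈ D, ((if x ∈ D then 0 else p) + (if x = b then 0 else (1 - p)))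
          = (1 - p) ^ D.card := by
        rw [← Finset.prod_const]
        apply Finset.prod_congr rfl
        intro x hx
        have : x ≠ b := fun h => hbD (h ▸ hx)
        simp [hx, this]
      rw [e1, e2, one_mul]
  rw [h2]
  apply mul_le_mul_of_nonneg_left _ hp0
  exact pow_le_pow_of_le_one (by linarith) (by linarith) hcard

open Classical in
/-- the fractional realizer. -/
noncomputable def realizer (k n : ℕ) (p : ℝ) (L : LinExt (P k n)) : ℝ :=
  (∑ R ∈ (Finset.Icc 1 n).powerset, if ext k n R = L then wt n p R else 0) / (p * (1 - p) ^ k)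

lemma realizer_total (k n : ℕ) (p : ℝ) :
    ∑ L : LinExt (P k n), realizer k n p L = 1 / (p * (1 - p) ^ k) := by
  classical
  unfold realizer
  rw [← Finset.sum_div, Finset.sum_comm]
  congr 1
  refine Eq.trans ?_ (sum_wt n p)
  apply Finset.sum_congr rfl
  intro R _
  simp

lemma realizer_isFracRealizer {k n : ℕ} {p : ℝ} (hp0 : 0 < p) (hp1 : p < 1) :
    IsFracRealizer (realizer k n p) := by
  classical
  have hpos : 0 < p * (1 - p) ^ k := mul_pos hp0 (pow_pos (by linarith) _)
  refine ⟨?_, ?_⟩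
  · intro L
    unfold realizer
    apply div_nonneg _ hpos.le
    apply Finset.sum_nonneg
    intro R _
    split_ifs
    · exact wt_nonneg hp0.le hp1.le R
    · exact le_refl _
  · intro A B hAB _
    have hAB' : ¬ A.1 ⊆ B.1 := hAB
    rw [Finset.not_subset] at hAB'
    obtain ⟨b, hbA, hbB⟩ := hAB'
    set D := B.1.filter (fun y => b < y) with hDdef
    have hbn : b ∈ Finset.Icc 1 n := A.2.1 hbA
    have hDn : D ⊆ Finset.Icc 1 n := (Finset.filter_subset _ _).trans B.2.1
    have hbD : b ∉ D := fun h => hbB (Finset.mem_filter.1 h).1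
    have hcard : D.card ≤ k := card_above B.2 (Finset.mem_Icc.1 hbn).1 hbB
    have hev := sum_wt_event (n := n) hp0.le hp1.le hbn hDn hbD hcard
    have hsum : ∑ L : LinExt (P k n), (if L.1 B A then realizer k n p L else 0)
        = (∑ R ∈ (Finset.Icc 1 n).powerset, if (ext k n R).1 B A then wt n p R else 0)
          / (p * (1 - p) ^ k) := by
      have e : ∀ L : LinExt (P k n), (if L.1 B A then realizer k n p L else 0)
          = (∑ R ∈ (Finset.Icc 1 n).powerset,
              if ext k n R = L then (if L.1 B A then wt n p R else 0) else 0)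
            / (p * (1 - p) ^ k) := by
        intro L
        by_cases h : L.1 B A
        · simp only [h, if_true]
          rfl
        · simp [h]
      rw [Finset.sum_congr rfl (fun L _ => e L), ← Finset.sum_div, Finset.sum_comm]
      congr 1
      apply Finset.sum_congr rfl
      intro R _
      simp
    rw [hsum, le_div_iff₀ hpos, one_mul]
    refine hev.trans (Finset.sum_le_sum ?_)
    intro R _
    by_cases h : b ∈ R ∧ Disjoint D R
    · have : (ext k n R).1 B A := by
        apply ext_reverses hbA hbB h.1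
        intro y hy hby hyR
        exact (Finset.disjoint_left.1 h.2) (Finset.mem_filter.2 ⟨hy, hby⟩) hyR
      simp [h, this]
    · rw [if_neg h]
      split_ifs
      · exact wt_nonneg hp0.le hp1.le R
      · exact le_refl _

/-! ### Assembling -/

lemma not_chain {k n : ℕ} (hk : 1 ≤ k) (hn : k + 2 ≤ n) :
    ¬ ∀ a b : P k n, a ≤ b ∨ b ≤ a := by
  intro h
  have m1 : Mem k n {1} := by
    refine ⟨by intro x hx; simp at hx; subst hx; simp; omega, ?_⟩
    intro i hi
    simp at hi
    intro x hx
    simp at hx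
    omega
  have m2 : Mem k n {2} := by
    refine ⟨by intro x hx; simp at hx; subst hx; simp; omega, ?_⟩
    intro i hi
    simp at hi
    intro x hx
    simp at hx
    omega
  rcases h ⟨{1}, m1⟩ ⟨{2}, m2⟩ with h | h
  · have h' : ({1} : Finset ℕ) ⊆ {2} := h
    simp at h'
  · have h' : ({2} : Finset ℕ) ⊆ {1} := h
    simp at h'

lemma value (k : ℕ) (hk : 1 ≤ k) :
    1 / ((1 / ((k : ℝ) + 1)) * (1 - 1 / ((k : ℝ) + 1)) ^ k) = ((k : ℝ) + 1) ^ (k + 1) / (k : ℝ) ^ k := by
  have hk' : (0 : ℝ) < k := by exact_mod_cast hk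
  have h1 : 1 - 1 / ((k : ℝ) + 1) = k / (k + 1) := by field_simp; ring
  rw [h1, div_pow, pow_succ]
  field_simp

lemma bound_lt (k : ℕ) (hk : 2 ≤ k) : ((k : ℝ) + 1) ^ (k + 1) / (k : ℝ) ^ k < 2 ^ (k + 1) := by
  have hk' : (2 : ℝ) ≤ k := by exact_mod_cast hk
  have hk0 : (0 : ℝ) < k := by linarith
  rw [div_lt_iff₀ (pow_pos hk0 _)]
  set x : ℝ := (k - 1) / (k + 1) with hx
  have hx0 : 0 < x := by rw [hx]; apply div_pos <;> linarith
  have hB : 1 + (k : ℝ) * x ≤ (1 + x) ^ k := one_add_mul_le_pow (by linarith) k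
  have hB2 : (1 + x) * (1 + (k : ℝ) * x) ≤ (1 + x) ^ (k + 1) := by
    rw [pow_succ, mul_comm]
    exact mul_le_mul_of_nonneg_right hB (by linarith)
  have hB3 : (k : ℝ) < (1 + x) ^ (k + 1) := by
    have : (1 + x) * (1 + (k : ℝ) * x) = 1 + (k + 1) * x + k * x ^ 2 := by ring
    have h2 : ((k : ℝ) + 1) * x = k - 1 := by rw [hx]; field_simp
    have h3 : 0 < (k : ℝ) * x ^ 2 := by positivity
    nlinarith
  have h1x : 1 + x = 2 * k / (k + 1) := by rw [hx]; field_simp; ring
  rw [h1x, div_pow, lt_div_iff₀ (by positivity), mul_pow] at hB3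
  have : (k : ℝ) * ((k : ℝ) + 1) ^ (k + 1) < k * (2 ^ (k + 1) * (k : ℝ) ^ k) := by
    calc (k : ℝ) * ((k : ℝ) + 1) ^ (k + 1) < 2 ^ (k + 1) * (k : ℝ) ^ (k + 1) := hB3
      _ = k * (2 ^ (k + 1) * (k : ℝ) ^ k) := by ring
  exact lt_of_mul_lt_mul_left this hk0.le

lemma fdim_le {k n : ℕ} (hk : 1 ≤ k) (hn : k + 2 ≤ n) :
    fdim (P k n) ≤ ((k : ℝ) + 1) ^ (k + 1) / (k : ℝ) ^ k := by
  unfold fdim
  rw [if_neg (not_chain hk hn)]
  have hk' : (1 : ℝ) ≤ k := by exact_mod_cast hk
  have hp0 : 0 < 1 / ((k : ℝ) + 1) := by positivity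
  have hp1 : 1 / ((k : ℝ) + 1) < 1 := by
    rw [div_lt_one (by linarith)]
    linarith
  apply csInf_le
  · refine ⟨0, ?_⟩
    rintro t ⟨w, hw, rfl⟩
    exact Finset.sum_nonneg (fun L _ => hw.1 L)
  · exact ⟨_, realizer_isFracRealizer hp0 hp1, by rw [realizer_total, value k hk]⟩

/-- **Negative answer to the question.** The first part is the literal negation of the question:
it is false that for every `k ≥ 1` and `ε > 0` one has `fdim (P(k,n)) > 2^(k+1) - ε` for all large
`n`. The second part is the reason: for all `k ≥ 1` and `n ≥ k + 2` the poset `P(k,n)` has a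
fractional realizer of total weight `(k+1)^(k+1) / k^k`, so `fdim (P(k,n)) ≤ (k+1)^(k+1) / k^k`,
and (third part) this bound, which does not depend on `n`, is smaller than `2^(k+1)` for every
`k ≥ 2`. -/
theorem result :
    (¬ ∀ k : ℕ, 1 ≤ k → ∀ ε : ℝ, 0 < ε → ∃ n₀ : ℕ, ∀ n : ℕ, n₀ ≤ n → k + 2 ≤ n →
        (2 : ℝ) ^ (k + 1) - ε < fdim (P k n)) ∧
    (∀ k n : ℕ, 1 ≤ k → k + 2 ≤ n →
        (∃ w : LinExt (P k n) → ℝ, IsFracRealizer w ∧
          ∑ L : LinExt (P k n), w L = ((k : ℝ) + 1) ^ (k + 1) / (k : ℝ) ^ k) ∧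
        fdim (P k n) ≤ ((k : ℝ) + 1) ^ (k + 1) / (k : ℝ) ^ k) ∧
    (∀ k : ℕ, 2 ≤ k → ((k : ℝ) + 1) ^ (k + 1) / (k : ℝ) ^ k < 2 ^ (k + 1)) := by
  refine ⟨?_, ?_, bound_lt⟩
  · intro h
    have hb := bound_lt 2 (le_refl _)
    obtain ⟨n₀, hn₀⟩ := h 2 (by norm_num)
      ((2 : ℝ) ^ (2 + 1) - (((2 : ℕ) : ℝ) + 1) ^ (2 + 1) / ((2 : ℕ) : ℝ) ^ 2) (by linarith)
    have h1 := hn₀ (max n₀ 4) (le_max_left _ _) (le_max_right _ _)
    have h2 := fdim_le (k := 2) (n := max n₀ 4) (by norm_num) (le_max_right _ _)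
    linarith
  · intro k n hk hn
    refine ⟨?_, fdim_le hk hn⟩
    have hk' : (1 : ℝ) ≤ k := by exact_mod_cast hk
    have hp0 : 0 < 1 / ((k : ℝ) + 1) := by positivity
    have hp1 : 1 / ((k : ℝ) + 1) < 1 := by
      rw [div_lt_one (by linarith)]
      linarith
    exact ⟨_, realizer_isFracRealizer hp0 hp1, by rw [realizer_total, value k hk]⟩

end Pool.Agent.Results.MP_4df60b_co.FdimBound
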